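import Pool.Agent.MP_8260ef_al.Words

set_option autoImplicit false

namespace Pool.Agent.Results.MP_8260ef_al.RecursivelyPresented

/-- There are three generators and a recursively enumerable set of relators such that the group is
soluble of derived length at most 3, satisfies max-n, and has insoluble word problem. -/
theorem result :
    ∃ R : Set (FreeGroup (Fin 3)),
      REPred (fun w : List (Fin 3 × Bool) => FreeGroup.mk w ∈ R) ∧
      derivedSeries (PresentedGroup R) 3 = ⊥ ∧
      (∀ f : ℕ → Subgroup (PresentedGroup R),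
        (∀ i, (f i).Normal) → Monotone f → ∃ n, ∀ j, n ≤ j → f j = f n) ∧
      ¬ ComputablePred (fun w : List (Fin 3 × Bool) =>
          FreeGroup.mk w ∈ Subgroup.normalClosure R) :=
  ⟨Pool.Agent.MaxN.Rel Pool.Agent.MaxN.kf,
    Pool.Agent.MaxN.rel_re Pool.Agent.MaxN.kf_inj Pool.Agent.MaxN.kf_primrec,
    Pool.Agent.MaxN.solvable _, Pool.Agent.MaxN.maxn, Pool.Agent.MaxN.wp_not_computable⟩

end Pool.Agent.Results.MP_8260ef_al.RecursivelyPresented
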